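import Pool.Agent.H49.RW1

set_option autoImplicit false

namespace Pool.Agent.Results.MP_0c3574_an.Rwm

open MeasureTheory Filter Topology

variable {X : Type} [MeasurableSpace X]

/-- the return sequence `u_i(F)` -/
noncomputable def u (μ : Measure X) (T : X → X) (F : Set X) (i : ℕ) : ℝ :=
  μ.real (T^[i] '' F ∩ F) / μ.real F ^ 2

/-- the normalising sums `a_n(F)` -/
noncomputable def a (μ : Measure X) (T : X → X) (F : Set X) (n : ℕ) : ℝ :=
  ∑ i ∈ Finset.range n, u μ T F i

/-- weak rational ergodicity -/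
def WRE (μ : Measure X) (T : X → X) : Prop :=
  ∃ F, MeasurableSet F ∧ 0 < μ F ∧ μ F < ⊤ ∧
    ∀ A B, MeasurableSet A → MeasurableSet B → A ⊆ F → B ⊆ F →
      Tendsto (fun n => (a μ T F n)⁻¹ * ∑ i ∈ Finset.range n, μ.real (T^[i] '' A ∩ B)) atTop
        (𝓝 (μ.real A * μ.real B))

/-- rational weak mixing -/
def RWM (μ : Measure X) (T : X → X) : Prop :=
  ∃ F, MeasurableSet F ∧ 0 < μ F ∧ μ F < ⊤ ∧
    ∀ A B, MeasurableSet A → MeasurableSet B → A ⊆ F → B ⊆ F →
      Tendsto (fun n => (a μ T F n)⁻¹ * ∑ i ∈ Finset.range n,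
        |μ.real (T^[i] '' A ∩ B) - μ.real A * μ.real B * u μ T F i|) atTop (𝓝 0)

theorem result (X : Type) [MeasurableSpace X] (μ : Measure X) [SigmaFinite μ] (T : X ≃ᵐ X)
    (hT : MeasurePreserving T μ μ) (hW : WRE μ T)
    (hE : Ergodic (Prod.map T T) (μ.prod μ)) : RWM μ T := by
  classical
  have main : PreErgodic (Prod.map T T) (μ.prod μ) → RWM μ T := by
    intro he
    obtain ⟨F, hF, h0, h1, hW⟩ := hW
    refine ⟨F, hF, h0, h1, fun A B hA hB s1 s2 => (tendsto_iff_ultrafilter _ _ _).2 fun U hU => ?_⟩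
    have p : μ.real F ≠ 0 := (ENNReal.toReal_pos h0.ne' h1.ne).ne'
    set x : ℕ → ℝ := fun i => μ.real (T^[i] '' A ∩ B) - μ.real A * μ.real B * u μ T F i with hx
    have key : ∀ s : ℕ → ℝ, (∀ i, 0 ≤ s i) → (∀ i, s i ≤ 1) →
        Tendsto (fun n => (a μ T F n)⁻¹ * ∑ i ∈ Finset.range n, s i * x i) U (𝓝 0) := by
      intro s t0 t1
      obtain ⟨c, hc⟩ := H49.RW.core hT he hF h1.ne (fun n => (a μ T F n)⁻¹) (fun n => inv_nonneg.2
        (Finset.sum_nonneg fun i _ => div_nonneg measureReal_nonneg (sq_nonneg _))) hW s t0 t1 U hU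
      have := (hc A B hA hB s1 s2).sub ((hc F F hF hF le_rfl le_rfl).const_mul
        (μ.real A * μ.real B / μ.real F ^ 2))
      rw [show c * (μ.real A * μ.real B) - μ.real A * μ.real B / μ.real F ^ 2 *
        (c * (μ.real F * μ.real F)) = 0 by field_simp; ring] at this
      refine this.congr fun n => ?_
      rw [mul_left_comm, ← mul_sub, Finset.mul_sum, ← Finset.sum_sub_distrib]
      congr 1
      exact Finset.sum_congr rfl fun i _ => by simp only [hx, u]; ring
    have := (key (fun i => if 0 ≤ x i then 1 else 0) (fun i => by positivity)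
      fun i => by split_ifs <;> simp).sub (key (fun i => if 0 ≤ x i then 0 else 1)
        (fun i => by positivity) fun i => by split_ifs <;> simp)
    rw [sub_zero] at this
    refine this.congr fun n => ?_
    rw [← mul_sub, ← Finset.sum_sub_distrib]
    congr 1
    refine Finset.sum_congr rfl fun i _ => ?_
    show _ = |x i|
    split_ifs with h
    · simp [abs_of_nonneg h]
    · simp [abs_of_neg (not_le.1 h)]
  exact main hE.toPreErgodic

end Pool.Agent.Results.MP_0c3574_an.Rwm
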